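import Pool.Agent.H64.BL.Final

/-!
A blocking set `B` of a non-collinear set `R` of `n` points with `t` connecting lines satisfies
`n (n - 1) ≤ 2 n |B| + 2 t`.
-/

namespace Pool.Agent.Results.MP_ad382c_co.BlockersAndLines

open H64.BL

theorem result (R : Finset (ℝ × ℝ)) (B : Finset PPlane) (hR : NotCol R) (hB : Blocks R B) :
    R.card * (R.card - 1) ≤ 2 * R.card * B.card + 2 * (conLines R).card :=
  lines_bound R B hR hB

end Pool.Agent.Results.MP_ad382c_co.BlockersAndLines
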