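import Pool.Agent.H57.Blk.Fam

/-!
`2k+1` points on each of three concurrent lines and their common point: `n = 6k+4` points of the real plane whose
connecting lines have `6k` blocking points, for every `k ≥ 1`.
-/

namespace Pool.Agent.Results.MP_ad382c_co.InfiniteFamily

open Pool.Agent.H97.Block

theorem result (n : ℕ) (hn : 9 ≤ n) :
    (n % 6 = 4 → f n ≤ n - 4) ∧ (n % 6 = 3 → f n ≤ n - 3) := by
  have h := Pool.Agent.H57.Blk.f_le (n / 6) (by omega)
  constructor
  · intro h6
    have e : n = 6 * (n / 6) + 4 := by omega
    have e' : n - 4 = 6 * (n / 6) := by omega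
    rw [e']
    rw [← e] at h
    exact h.1
  · intro h6
    have e : n = 6 * (n / 6) + 3 := by omega
    have e' : n - 3 = 6 * (n / 6) := by omega
    rw [e']
    rw [← e] at h
    exact h.2.1

end Pool.Agent.Results.MP_ad382c_co.InfiniteFamily
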