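import Pool.Agent.H66.Iso.Fin

/-!
Every blocking set of `n` non-collinear points of the real plane has at least
`((2 + sqrt 2) / 8) (n + 3)` points; in particular `f 10 = 6`.
-/

namespace Pool.Agent.Results.MP_ad382c_co.IsotropicBound

open Pool.Agent.H97.Block

theorem result :
    (∀ (R : Finset (ℝ × ℝ)) (B : Finset PP), ¬ Collinear ℝ (R : Set (ℝ × ℝ)) → Blocks R B →
      (2 + Real.sqrt 2) / 8 * ((R.card : ℝ) + 3) ≤ B.card) ∧
    (∀ n : ℕ, 3 ≤ n → (2 + Real.sqrt 2) / 8 * ((n : ℝ) + 3) ≤ f n) ∧ f 10 = 6 :=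
  ⟨H66.Iso.blocks_bound', H66.Iso.f_bound, H66.Iso.f_ten⟩

end Pool.Agent.Results.MP_ad382c_co.IsotropicBound
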