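import Pool.Agent.H97.Block.Data

/-!
Explicit point sets of the real plane whose connecting lines have few blocking points:
`f 10 ≤ 6`, `f 14 ≤ 9`, `f 16 ≤ 10`, `f 21 ≤ 15`.
-/

namespace Pool.Agent.Results.MP_ad382c_co.SmallConfigurations

open Pool.Agent.H97.Block

theorem result : f 10 ≤ 6 ∧ f 14 ≤ 9 ∧ f 16 ≤ 10 ∧ f 21 ≤ 15 :=
  ⟨f10, f14, f16, f21⟩

end Pool.Agent.Results.MP_ad382c_co.SmallConfigurations
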